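import Pool.Agent.Helper3.WCBias

/-!
The conjecture `b_wc(OC_n) = (1+o(1)) n` is false: there is `ε > 0` such that, for all large `n`,
Waiter wins the `(1:q)` Waiter-Client odd cycle game on `K_n` for some `q ≥ (1+ε) n`.

The definitions (`WaiterWinsFrom`, `WaiterWins`, `thresholdBias`, ...) are in
`Pool.Agent.Helper3.WCDefs`.
-/

namespace Pool.Agent.Results.MP_153aba_co.BiasAboveN

open Pool.Agent.Helper3.WC Filter Topology

/-- For some `ε > 0` the threshold bias of the Waiter-Client odd cycle game on `K_n` is at least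
`(1 + ε) n` for all sufficiently large `n`. -/
theorem result : ∃ ε : ℝ, 0 < ε ∧ ∀ᶠ n : ℕ in atTop, (1 + ε) * n ≤ (thresholdBias n : ℝ) :=
  eventually_le_thresholdBias

/-- In particular the threshold bias is not `(1 + o(1)) n`. -/
theorem not_tendsto_one :
    ¬ Tendsto (fun n : ℕ => (thresholdBias n : ℝ) / n) atTop (𝓝 1) := by
  intro h
  obtain ⟨ε, hε, hev⟩ := result
  have h1 : ∀ᶠ n : ℕ in atTop, (thresholdBias n : ℝ) / n < 1 + ε :=
    h.eventually (gt_mem_nhds (by linarith))
  obtain ⟨n, hn1, hn2, hn3⟩ := (h1.and (hev.and (eventually_gt_atTop 0))).exists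
  have hn' : (0 : ℝ) < n := by exact_mod_cast hn3
  rw [div_lt_iff₀ hn'] at hn1
  linarith

end Pool.Agent.Results.MP_153aba_co.BiasAboveN
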